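import Pool.Agent.Helper44.KW.Defs

/-!
# Block W5: orthogonality on the cube, the covariance by Fourier coefficients
-/

set_option autoImplicit false

namespace Pool.Agent.Helper44.KW

open MeasureTheory Set Filter Topology

lemma w5_ex_add (s t : ℝ) : ex (s + t) = ex s * ex t := by
  unfold ex
  rw [← Complex.exp_add]; congr 1; push_cast; ring

lemma w5_ex_sum {n : ℕ} (g : Fin n → ℝ) : ex (∑ i, g i) = ∏ i, ex (g i) := by
  unfold ex
  rw [← Complex.exp_sum]; congr 1; push_cast; rw [Finset.mul_sum, Finset.sum_mul]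

lemma w5_ex_cont : Continuous ex := by unfold ex; fun_prop

lemma w5_int_one (c : ℤ) : ∫ t in Icc (0:ℝ) 1, ex ((c : ℝ) * t) = if c = 0 then 1 else 0 := by
  rw [integral_Icc_eq_integral_Ioc, ← intervalIntegral.integral_of_le zero_le_one]
  by_cases hc : c = 0
  · subst hc
    simp [ex]
  · rw [if_neg hc]
    have h1 : (2 * Real.pi * c * Complex.I : ℂ) ≠ 0 := by
      have : (c : ℂ) ≠ 0 := by exact_mod_cast hc
      have h2 : (Real.pi : ℂ) ≠ 0 := by exact_mod_cast Real.pi_ne_zero
      simp [this, h2]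
    have h2 : (fun t : ℝ => ex ((c : ℝ) * t)) = fun t : ℝ => Complex.exp ((2 * Real.pi * c * Complex.I) * t) := by
      funext t
      unfold ex
      congr 1; push_cast; ring
    rw [h2, integral_exp_mul_complex h1]
    have h3 : Complex.exp (2 * Real.pi * c * Complex.I * (1:ℝ)) = 1 := by
      rw [Complex.exp_eq_one_iff]
      exact ⟨c, by push_cast; ring⟩
    rw [h3]
    simp

/-- orthogonality on the cube -/
lemma w5_int_cube {n : ℕ} (c : Fin n → ℤ) : ∫ t in Icc (0 : Fin n → ℝ) 1, ex (∑ i, (c i : ℝ) * t i) =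
    if ∀ i, c i = 0 then 1 else 0 := by
  have h1 : (volume : Measure (Fin n → ℝ)).restrict (Icc 0 1) = Measure.pi fun _ : Fin n => (volume : Measure ℝ).restrict (Icc 0 1) := by
    have : (Icc (0 : Fin n → ℝ) 1) = Set.pi univ fun _ => Icc (0:ℝ) 1 := (Set.pi_univ_Icc _ _).symm
    rw [this, volume_pi, Measure.restrict_pi_pi]
  rw [h1]
  simp only [w5_ex_sum]
  rw [integral_fintype_prod_eq_prod (fun i (t : ℝ) => ex ((c i : ℝ) * t))]
  simp only [w5_int_one]
  rw [Finset.prod_ite_zero]
  simp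

lemma w5_sum_cmb {k : ℕ} (h h' : Fin k → ℤ) (d : Fin k) (t : Fin (2 * k) → ℝ) :
    (∑ i : Fin k, (h i : ℝ) * t ⟨i, by omega⟩) + ∑ i : Fin k, (h' i : ℝ) * t ⟨i + d, by omega⟩ =
      ∑ m : Fin (2 * k), (cmb h h' d m : ℝ) * t m := by
  have e1 : ∑ i : Fin k, (h i : ℝ) * t ⟨i, by omega⟩ =
      ∑ m : Fin (2 * k), ((if hm : (m : ℕ) < k then h ⟨m, hm⟩ else 0 : ℤ) : ℝ) * t m := by
    symm
    rw [← Finset.sum_filter_add_sum_filter_not Finset.univ (fun m : Fin (2 * k) => (m : ℕ) < k)]
    rw [add_comm, Finset.sum_eq_zero, zero_add]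
    · symm
      refine Finset.sum_bij (fun i _ => (⟨i, by omega⟩ : Fin (2 * k))) ?_ ?_ ?_ ?_
      · intro i _
        simp
      · intro i _ j _ hij
        simpa [Fin.ext_iff] using hij
      · intro m hm
        simp only [Finset.mem_filter, Finset.mem_univ, true_and] at hm
        exact ⟨⟨m, hm⟩, Finset.mem_univ _, rfl⟩
      · intro i _
        simp
    · intro m hm
      simp only [Finset.mem_filter, Finset.mem_univ, true_and] at hm
      simp [hm]
  have e2 : ∑ i : Fin k, (h' i : ℝ) * t ⟨i + d, by omega⟩ =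
      ∑ m : Fin (2 * k), ((if hm : (d : ℕ) ≤ m ∧ (m : ℕ) < d + k then h' ⟨m - d, by omega⟩ else 0 : ℤ) : ℝ) * t m := by
    symm
    rw [← Finset.sum_filter_add_sum_filter_not Finset.univ (fun m : Fin (2 * k) => (d : ℕ) ≤ m ∧ (m : ℕ) < d + k)]
    rw [add_comm, Finset.sum_eq_zero, zero_add]
    · symm
      refine Finset.sum_bij (fun i _ => (⟨i + d, by omega⟩ : Fin (2 * k))) ?_ ?_ ?_ ?_
      · intro i _
        simp only [Finset.mem_filter, Finset.mem_univ, true_and]
        constructor <;> omega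
      · intro i _ j _ hij
        simpa [Fin.ext_iff] using hij
      · intro m hm
        simp only [Finset.mem_filter, Finset.mem_univ, true_and] at hm
        refine ⟨⟨m - d, by omega⟩, Finset.mem_univ _, ?_⟩
        ext
        simp only
        omega
      · intro i _
        have h1 : (d : ℕ) ≤ (i : ℕ) + d ∧ (i : ℕ) + d < d + k := ⟨by omega, by omega⟩
        simp only [h1, and_self, dite_true]
        congr 3
        ext
        simp
    · intro m hm
      simp only [Finset.mem_filter, Finset.mem_univ, true_and] at hm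
      rw [dif_neg hm]; simp
  rw [e1, e2, ← Finset.sum_add_distrib]
  refine Finset.sum_congr rfl fun m _ => ?_
  unfold cmb
  push_cast
  ring

lemma w5_van {k : ℕ} (h h' : Fin k → ℤ) (d : Fin k) : (∀ m : Fin (2 * k), cmb h h' d m = 0) ↔ Van h h' d := by
  constructor
  · intro hh m
    by_cases hm : m < 2 * k
    · exact hh ⟨m, hm⟩
    · unfold cmb
      rw [dif_neg (by omega), dif_neg (by omega)]
      rfl
  · intro hh m
    exact hh m

/-! ## W5 (cube) -/
theorem rho_eq {k : ℕ} {Φ : (Fin k → ℝ) → ℝ} {S : Finset (Fin k → ℤ)} {z : (Fin k → ℤ) → ℂ}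
    (hΦ : TrigP k Φ S z) (d : Fin k) : (rho k Φ d : ℂ) = rhoA S z d := by
  classical
  unfold rho rhoA
  rw [← integral_complex_ofReal]
  have e : ∀ t : Fin (2 * k) → ℝ, ((Φ (fun i : Fin k => t ⟨i, by omega⟩) * Φ (fun i : Fin k => t ⟨i + d, by omega⟩) : ℝ) : ℂ) =
      ∑ h ∈ S, ∑ h' ∈ S, z h * z h' * ex (∑ m : Fin (2 * k), (cmb h h' d m : ℝ) * t m) := by
    intro t
    push_cast
    rw [hΦ, hΦ, Finset.sum_mul_sum]
    refine Finset.sum_congr rfl fun h _ => Finset.sum_congr rfl fun h' _ => ?_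
    rw [← w5_sum_cmb, w5_ex_add]
    ring
  simp only [e]
  have hint : ∀ h h' : Fin k → ℤ, IntegrableOn (fun t : Fin (2 * k) → ℝ => z h * z h' * ex (∑ m : Fin (2 * k), (cmb h h' d m : ℝ) * t m)) (Icc 0 1) := by
    intro h h'
    refine Continuous.integrableOn_Icc ?_
    have := w5_ex_cont
    fun_prop
  rw [integral_finsetSum _ fun h _ => integrable_finsetSum _ fun h' _ => hint h h']
  refine Finset.sum_congr rfl fun h _ => ?_
  rw [integral_finsetSum _ fun h' _ => hint h h']
  refine Finset.sum_congr rfl fun h' _ => ?_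
  rw [integral_const_mul, w5_int_cube]
  by_cases hv : Van h h' d
  · rw [if_pos hv, if_pos ((w5_van h h' d).2 hv), mul_one]
  · rw [if_neg hv, if_neg fun hh => hv ((w5_van h h' d).1 hh), mul_zero]

end Pool.Agent.Helper44.KW
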